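import Pool.Agent.H367.OS.OOri
import Mathlib

/-!
# Schneider's conjecture and the abelian varieties of one sequence of cubics

A relation `r` of size `m` is one of the equations `x_i x_j = x_l`, `x_i + x_j = x_l`, `x_i = 1` with
`i, j, l < m`; the relations are numbered, the number of `r` is `ν(r)` (`relNum`). Let `G_m` be the
following polynomial with integral coefficients (`univG ℤ m`). There are variables `x_i` and `z_ij` for
`i, j < m`, a variable `c_r` for every relation `r`, and variables `y_{r,l}` for all relations `r` and
`l < (m + 1) 2 ^ ν(r)`. The equations (`eqnG`) are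

  `z_ij - x_i x_j`,  `c_r ^ 2 - c_r`,  `c_r ρ_r`,  `(1 - c_r) y_{r,l}`,

where `ρ_r` is the linear polynomial `z_ij - x_l`, `x_i + x_j - x_l` or `x_i - 1` of the relation.
`G_m` is the sum of the equations multiplied by further variables `t_e`, one for each equation. It has
degree three. Let `C_m` be the affine cubic hypersurface `G_m = 1` (`cubG R m` over the ring `R`); it is
smooth over the integers.

Let `M` be the category of motives over `ℚ` in the sense of André, a semisimple abelian category with
Tate twists `N ↦ N(a)`. For a separated scheme `X` of finite type over `ℚ` let `D.G w j X = Gr^W_w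
H^j_c(X)` be the part of weight `w` of the cohomology with compact supports, a motive over `ℚ`; for
smooth projective `Y` it is `h^j(Y)` if `j = w`, and zero otherwise.

The type `Ab` consists of the abelian varieties over `ℚ`, and `h1 B = h^1(B)`. A direct factor `h1 C`
of `h1 B` is the same as an abelian variety `C` which is, up to isogeny, a direct factor of `B`. Every
direct factor of `h^1(Y)` is `h1 B` for some `B` (`AbelianVarieties`).

For an abelian variety `B` over `ℚ` let `H.modular B` say that `B` is a quotient of some `J_1(n)`, and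
`H.ordinary p B` that it has good ordinary reduction at `p`. For such `B` let `H.reg p B` be the
determinant of the canonical `p`-adic height pairing `B(ℚ) × B^∨(ℚ) → ℚ_p` with respect to bases
modulo torsion (well defined up to the sign); for a principally polarized `B` (`H.principal B`) this
is the regulator of the question, up to the sign. The following facts are hypotheses (`IsHeights`).

* `factor`: the pairing is compatible with isogenies and products, so if it is non-degenerate for `B`, it is
  non-degenerate for all direct factors of `B`.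
* `zarhin`: for a modular `B` the abelian variety `(B × B^∨)^4` is principally polarized, it is modular
  (`B^∨` is isogenous to `B`, and the degeneracy maps), and it is ordinary at the same primes.
* `part`: every abelian variety `B` has, up to isogeny, a largest direct factor `C` that is modular and has
  good ordinary reduction at `p` (`IsPart h1 H p C (h1 B)`).

**Theorem.** Let `E_m` be the number of the equations, and for `N ∈ ℕ` let `e = (m + 1) N + E_m - 1`
(`esh m N`). Let `single D m N` be
the motive `Gr^W_{1+2e} H^{2+2e}_c(C_m)(e)`.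

(1) For all `m ≥ 1` and `N` there is an abelian variety `B_{m,N}` over `ℚ` with `h^1(B_{m,N}) = single
D m N`. Let `C_{m,N,p}` be the largest direct factor of `B_{m,N}` that is modular and has good
ordinary reduction at `p` (`IsPart`). It exists, and is unique up to isogeny.

(2) For every prime `p` question Q1 has a positive answer for all principally polarized modular abelian
varieties with good ordinary reduction at `p` if and only if, for infinitely many `m`, the `p`-adic
regulators of the abelian varieties `C_{m,N,p}` are different from zero, for all `N`.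

(3) Question Q1 has a positive answer if and only if, for infinitely many `m`, the `p`-adic regulators
of the abelian varieties `C_{m,N,p}` are different from zero, for all `N` and `p`.

(4) For every abelian variety `B` over `ℚ` and all large `m` there is an `N` such that `B` is, up to
isogeny, a direct factor of `B_{m,N}`. If `B` is modular and has good ordinary reduction at `p`, and
`Reg_p(C_{m,N,p}) ≠ 0`, then `Reg_p(B) ≠ 0`.

(5) `G_m` has integral coefficients and degree at most three, and `C_m` is smooth over all rings.

The hypotheses on the motives are standard (`IsMot`): exact sequences, affine bundles, disjoint unions,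
the cohomology of affine spaces, the weights of `H^j_c(X)` are between `0` and `2 dim X`, monomorphisms
split, `Gr^W_w H^j_c(X)` is a direct factor of `h^w(Y)` for some smooth projective `Y` (it is a
subquotient, by the weight spectral sequence), and every smooth projective scheme has an affine bundle
whose total space is affine (Jouanolou).

Idea of the proof. The projection of `C_m` to the affine space with the coordinates `x, z, c, y` is an
affine bundle over the complement of the zero set `W_m` of the equations. The scheme `W_m` is the
disjoint union, over all sets `s` of relations (`c_r = 1` for `r ∈ s` and `c_r = 0` for the others), of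
the products `X_s × 𝔸 ^ ((m + 1) N(s))`, where `X_s` is the affine scheme defined by the relations in
`s` and `N(s) = ∑_{r ∈ s} 2 ^ ν(r)`. The numbers `N(s)` are different, and the dimension of `X_s` is at
most `m`. So the invariant of `W_m` with the index `q + (m + 1) N(s)`, `0 ≤ q ≤ m`, is the invariant of
`X_s` with the index `q`; the other components do not contribute. Every affine scheme of finite type
over a prime field is an `X_s`, for all large `m`.

The universal system of relations is the one of helper854 (`Pool.Agent.H854.SQ`).
-/

set_option autoImplicit false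

open CategoryTheory CategoryTheory.Limits AlgebraicGeometry Pool.Agent.Y116.UV Pool.Agent.Z125.UN
  Pool.Agent.Q193.LT Pool.Agent.H854.SQ Pool.Agent.H367.OS

universe w v u



namespace Pool.Agent.Results.MP_3550b5_nt.PiecesOfOneSequence

/-- The properties of the abelian varieties over `ℚ`, and the regulators. -/
structure Heights (Ab : Type w) where
  /-- it is a quotient of some `J_1(n)` -/
  modular : Ab → Prop
  /-- good ordinary reduction at `p` -/
  ordinary : ℕ → Ab → Prop
  /-- there is a principal polarization -/
  principal : Ab → Prop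
  /-- the determinant of the `p`-adic height pairing modulo torsion -/
  reg : ∀ (p : ℕ) [Fact p.Prime], Ab → ℚ_[p]

variable {A : Type u} [Category.{v} A] {Ab : Type w}

/-- `C` is the largest direct factor of `M`, up to isogeny, which is modular and has good ordinary
reduction at `p`. -/
def IsPart (h1 : Ab → A) (H : Heights Ab) (p : ℕ) (C : Ab) (M : A) : Prop :=
  Factor (h1 C) M ∧ H.modular C ∧ H.ordinary p C ∧
    ∀ B : Ab, Factor (h1 B) M → H.modular B → H.ordinary p B → Factor (h1 B) (h1 C)

/-- The facts on height pairings, see the explanations above. -/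
structure IsHeights (h1 : Ab → A) (H : Heights Ab) : Prop where
  factor : ∀ (p : ℕ) [Fact p.Prime] (B C : Ab), Factor (h1 C) (h1 B) → H.modular B →
    H.ordinary p B → H.reg p B ≠ 0 → H.reg p C ≠ 0
  zarhin : ∀ B : Ab, H.modular B → ∃ B' : Ab, H.principal B' ∧ H.modular B' ∧
    Factor (h1 B) (h1 B') ∧ ∀ p : ℕ, H.ordinary p B → H.ordinary p B'
  part : ∀ (p : ℕ) [Fact p.Prime] (B : Ab), ∃ C : Ab, IsPart h1 H p C (h1 B)

/-- Question Q1 at the prime `p`. -/
def Q1 (H : Heights Ab) (p : ℕ) [Fact p.Prime] : Prop :=
  ∀ B : Ab, H.principal B → H.modular B → H.ordinary p B → H.reg p B ≠ 0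

/-- The regulator of the largest modular ordinary direct factor of `M` is different from zero. -/
def RegAt (h1 : Ab → A) (H : Heights Ab) (p : ℕ) [Fact p.Prime] (M : A) : Prop :=
  ∀ C : Ab, IsPart h1 H p C M → H.reg p C ≠ 0

/-- The single motive `Gr^W_{1+2e} H^{2+2e}_c(e)` of the hypersurface `G_m = 1`. -/
noncomputable def single (D : Pieces ℚ A) (m N : ℕ) : A :=
  (D.tw (esh m N)).obj (D.G (1 + 2 * esh m N) (1 + 2 * esh m N + 1) (cubG ℚ m))

lemma IsHeights.all {h1 : Ab → A} {H : Heights Ab} (hH : IsHeights h1 H) {p : ℕ} [Fact p.Prime]
    (hQ : Q1 H p) (B : Ab) (hm : H.modular B) (ho : H.ordinary p B) : H.reg p B ≠ 0 := by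
  obtain ⟨B', h2, h3, h4, h5⟩ := hH.zarhin B hm
  exact hH.factor p B' B h4 h3 (h5 p ho) (hQ B' h2 h3 (h5 p ho))

lemma part_iso {h1 : Ab → A} {H : Heights Ab} {p : ℕ} {C : Ab} {M M' : A} (e : M ≅ M')
    (h : IsPart h1 H p C M) : IsPart h1 H p C M' :=
  ⟨h.1.trans (Factor.of_iso e), h.2.1, h.2.2.1,
    fun B hB => h.2.2.2 B (hB.trans (Factor.of_iso e.symm))⟩

/-- **Schneider's conjecture and the abelian varieties of one sequence of cubic hypersurfaces over the
integers.** See the explanations above. -/
theorem result [Abelian A] {D : Pieces ℚ A} (h : IsMot D) {h1 : Ab → A}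
    (ha : AbelianVarieties D h1) {H : Heights Ab} (hH : IsHeights h1 H) :
    (∀ m, 1 ≤ m → ∀ N : ℕ, (∃ B : Ab, Nonempty (h1 B ≅ single D m N)) ∧
      ∀ (p : ℕ) [Fact p.Prime], ∃ C : Ab, IsPart h1 H p C (single D m N)) ∧
    (∀ (p : ℕ) [Fact p.Prime], Q1 H p ↔
      ∃ᶠ m in Filter.atTop, ∀ N : ℕ, RegAt h1 H p (single D m N)) ∧
    ((∀ (p : ℕ) [Fact p.Prime], Q1 H p) ↔
      ∃ᶠ m in Filter.atTop, ∀ (N p : ℕ) [Fact p.Prime], RegAt h1 H p (single D m N)) ∧
    (∀ B : Ab, ∀ᶠ m in Filter.atTop, ∃ N : ℕ, Factor (h1 B) (single D m N) ∧
      (H.modular B → ∀ (p : ℕ) [Fact p.Prime], H.ordinary p B → RegAt h1 H p (single D m N) →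
        H.reg p B ≠ 0)) ∧
    ∀ m : ℕ, (univG ℤ m).totalDegree ≤ 3 ∧
      ∀ (R : Type) [CommRing R], MvPolynomial.map (Int.castRingHom R) (univG ℤ m) = univG R m ∧
        Smooth (cubG R m).hom := by
  obtain ⟨k1, k2⟩ := abelian_occurs isPrimeField_rat h ha
  have h2 : ∀ m, 1 ≤ m → ∀ N : ℕ, (∃ B : Ab, Nonempty (h1 B ≅ single D m N)) ∧
      ∀ (p : ℕ) [Fact p.Prime], ∃ C : Ab, IsPart h1 H p C (single D m N) := by
    intro m hm N
    obtain ⟨B, ⟨e⟩⟩ := k1 m hm N
    refine ⟨⟨B, ⟨e⟩⟩, fun p _ => ?_⟩
    obtain ⟨C, hC⟩ := hH.part p B
    exact ⟨C, part_iso e hC⟩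
  have h3 : ∀ B : Ab, ∀ᶠ m in Filter.atTop, ∃ N : ℕ, Factor (h1 B) (single D m N) ∧
      (H.modular B → ∀ (p : ℕ) [Fact p.Prime], H.ordinary p B → RegAt h1 H p (single D m N) →
        H.reg p B ≠ 0) := by
    intro B
    filter_upwards [k2 B, Filter.eventually_ge_atTop 1] with m hm hm1
    obtain ⟨N, hN⟩ := hm
    refine ⟨N, hN, fun hB p _ ho hr => ?_⟩
    obtain ⟨C, hC⟩ := (h2 m hm1 N).2 p
    exact hH.factor p C B (hC.2.2.2 B hN hB ho) hC.2.1 hC.2.2.1 (hr C hC)
  refine ⟨h2, fun p _ => ⟨fun g => Filter.Frequently.of_forall fun m N C hC =>
    hH.all g C hC.2.1 hC.2.2.1, fun g B _ hB ho => ?_⟩, ⟨fun g =>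
    Filter.Frequently.of_forall fun m N p _ C hC => hH.all (g p) C hC.2.1 hC.2.2.1,
    fun g p _ B _ hB ho => ?_⟩, h3, cubG_facts⟩
  · obtain ⟨m, hm1, N, -, hm2⟩ := (g.and_eventually (h3 B)).exists
    exact hm2 hB p ho (hm1 N)
  · obtain ⟨m, hm1, N, -, hm2⟩ := (g.and_eventually (h3 B)).exists
    exact hm2 hB p ho (hm1 N p)

end Pool.Agent.Results.MP_3550b5_nt.PiecesOfOneSequence
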